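import Pool.Agent.Helper90.SEP.Law
import Pool.Agent.Helper24.T3.St

/-! SEP (B): the field `st` of `CorH` from separation of two conditionally independent copies of the direction. -/

set_option autoImplicit false

namespace Pool.Agent.Helper90.SEP

open Finset Filter Topology Pool.Agent.Helper69.RK Pool.Agent.Helper31.EC Pool.Agent.Helper31.EC.Sp
open Pool.Agent.Helper40.EL Pool.Agent.Helper25.EC Pool.Agent.Helper24.T3 Pool.Agent.Helper40.NSK QS
open Pool.Agent.Helper99.CC Pool.Agent.Helper99.LF Pool.Agent.Helper50.CV Pool.Agent.Helper69.BF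

noncomputable section

variable {T : Sp}

/-- a function whose representative is small with probability zero is big -/
theorem big_zero {f : QS T} (F : TR T) (hF : QS.mk F = f)
    (h : ∀ δ : ℝ, 0 < δ → ul (T.pr fun k ω => |TR.ev F k ω| ≤ T.dl δ k) ≤ 0) : Big f 0 := by
  intro δ hδ
  obtain ⟨g, hg⟩ : ∃ g, g = (QS.mk_surj f).choose := ⟨_, rfl⟩
  have hm : QS.mk g = QS.mk F := by
    rw [hg, hF]
    exact (QS.mk_surj f).choose_spec
  rw [← hg]
  have hT := Pool.Agent.Helper99.EC.close_of_eq hm (by norm_num : (0 : ℝ) < 1 / 2)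
  obtain ⟨d, hd⟩ : ∃ d, d = min δ (1 / 2) / 2 := ⟨_, rfl⟩
  have hd0 : 0 < d := by
    rw [hd]
    have : 0 < min δ (1 / 2) := lt_min hδ (by norm_num)
    linarith
  have h1 : 2 * d ≤ δ := by
    rw [hd]
    have := min_le_left δ (1 / 2)
    linarith
  have h2 : 2 * d ≤ 1 - 1 / 2 := by
    rw [hd]
    have := min_le_right δ (1 / 2)
    linarith
  refine le_trans ((ul_pr_and_typ hT).trans (ul_pr_mono (E' := fun k ω => |TR.ev F k ω| ≤ T.dl d k) ?_)) (h d hd0)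
  filter_upwards [(T.Sub_const (zero_le_two : (0 : ℝ) ≤ 2)).eventually_le hd0] with k hk ω _ hh
  obtain ⟨e1, e2⟩ := hh
  have e3 : T.dl δ k ≤ T.dl (2 * d) k := T.dl_anti h1 k
  have e4 : T.dl (1 - 1 / 2) k ≤ T.dl (2 * d) k := T.dl_anti h2 k
  have e5 : |TR.ev F k ω| ≤ 2 * T.dl (2 * d) k := by
    have e6 : TR.ev F k ω = TR.ev g k ω - (TR.ev g k ω - TR.ev F k ω) := by ring
    rw [e6]
    refine (abs_sub _ _).trans ?_
    linarith
  refine e5.trans ?_
  have e7 : T.dl (2 * d) k = T.dl d k * T.dl d k := by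
    rw [← T.dl_add]
    congr 1
    ring
  have e8 : 2 * T.dl d k ≤ 1 := by
    have e9 : 2 ^ (d * (T.F k).n) * T.dl d k = 1 := by
      unfold Sp.dl
      rw [← Real.rpow_add (by norm_num : (0 : ℝ) < 2)]
      simp
    have := mul_le_mul_of_nonneg_right hk (T.dl_pos d k).le
    linarith
  rw [e7]
  have := T.dl_pos d k
  nlinarith

theorem fB_Fn' {d k : ℕ} (tr : FTC T d k) (l : Fin (d + 1) ⊕ Unit) :
    (fc tr).fB l ∈ Fn (α := fun _ => Fin (d + 1 + 1) → ℤ) (tr.pv.cellv 1) := by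
  rcases l with i | i
  · have h1 : (fc tr).fB (Sum.inl i) = QS.mk (TR.cor tr.pv i.castSucc) := by
      show (fc tr).q i = _
      rw [fc_q]
      congr 1
      unfold FTC.pv
      rw [TR.cor_vec, Fin.snoc_castSucc]
    rw [h1]
    exact cor_Fn _ _
  · have h1 : (fc tr).fB (Sum.inr i) = QS.mk (TR.cor tr.pv (Fin.last (d + 1))) := by
      show (fc tr).z = _
      rw [fc_z]
      congr 1
      unfold FTC.pv
      rw [TR.cor_vec, Fin.snoc_last]
    rw [h1]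
    exact cor_Fn _ _

theorem fB_io {d k : ℕ} (tr : FTC T d k) :
    vd (fc tr).fB 1 = io (α := fun _ => Fin (d + 1 + 1) → ℤ) (tr.pv.cellv 1) := by
  have h1 := tr.pv_dg
  rw [← cbOf_fc, cbOf_fQ] at h1
  rw [← h1]
  rfl

theorem st_of_cps {k : ℕ} (tr : FTC T 1 k) {N : ℕ} (C : Cps T (wZ (α := fun _ => Fin (1 + 1 + 1) → ℤ) (tr.pv.cellv 1)) N)
    (hV : Bdd (α := fun _ => Fin (1 + 1 + 1) → ℤ) (tr.pv.cellv 1)) (h : ∀ i j, i ≠ j → ∀ δ : ℝ, 0 < δ →
      ul (fun n => (C.W.F n).pb (fun w => |TR.ev (tr.x 0) n ((C.p i).π n w) - TR.ev (tr.x 0) n ((C.p j).π n w)| ≤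
        T.dl δ n)) ≤ 0) (e : Fin (1 + 1) → Fin (N + 1)) (he : Function.Injective e) :
    Big (Matrix.of fun i j => ((toCQ C hV (fc tr).fB (fB_Fn' tr) (fB_io tr)).p (e i)).qs ((fc tr).v j)).det 0 := by
  have h2 : QS.mk ((C.p (e 1)).tr (tr.x 0) - (C.p (e 0)).tr (tr.x 0)) =
      (Matrix.of fun i j => ((C.p (e i)).qs ((fc tr).v j))).det := by
    have e0 : ∀ i, (Matrix.of fun i j => (C.p (e i)).qs ((fc tr).v j)) i 0 = 1 := fun i => map_one (C.p (e i)).qs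
    have e1 : ∀ i, (Matrix.of fun i j => (C.p (e i)).qs ((fc tr).v j)) i 1 = QS.mk ((C.p (e i)).tr (tr.x 0)) :=
      fun i => rfl
    rw [Matrix.det_fin_two, e0, e0, e1, e1, one_mul, mul_one, map_sub]
  show Big (Matrix.of fun i j => ((C.p (e i)).qs ((fc tr).v j))).det 0
  apply big_zero _ h2
  intro δ hδ
  refine le_trans (le_of_eq ?_) (h (e 1) (e 0) (he.ne (by decide)) δ hδ)
  congr 1
  funext n
  unfold Sp.pr
  congr 1
  funext ω
  have h5 : C.W.dl δ n = T.dl δ n := by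
    unfold Sp.dl
    rw [(C.p (e 1)).hn n]
  show (|TR.ev ((C.p (e 1)).tr (tr.x 0) - (C.p (e 0)).tr (tr.x 0)) n ω| ≤ C.W.dl δ n) = _
  rw [h5]
  rfl

/-- **SEP (B)** -/
theorem sep_B {k : ℕ} (tr : FTC T 1 k) (hyp : ∀ δ : ℝ, 0 < δ →
    ul (fun n => (FAm.self (T.F n) (Setoid.ker (tr.pv.cellv 1 n))).sp.pb
      (fun w => |TR.ev (tr.x 0) n w.1 - TR.ev (tr.x 0) n w.2| ≤ T.dl δ n)) = 0) (N : ℕ) :
    ∃ w : QS.CQ T (fc tr).fB N, ∀ e : Fin (1 + 1) → Fin (N + 1), Function.Injective e →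
      Big (Matrix.of fun i j => (w.p (e i)).qs ((fc tr).v j)).det 0 := by
  have hV : Bdd (α := fun _ => Fin (1 + 1 + 1) → ℤ) (tr.pv.cellv 1) := tr.pv.bdd 1
  refine ⟨toCQ (can (tr.pv.cellv 1) hV N) hV (fc tr).fB (fB_Fn' tr) (fB_io tr), fun e he => ?_⟩
  refine st_of_cps tr (can (tr.pv.cellv 1) hV N) hV (fun i j hij δ hδ => ?_) e he
  refine le_trans (le_of_eq ?_) (hyp δ hδ).le
  congr 1
  funext n
  exact can_pb hV n (Setoid.ker (tr.pv.cellv 1 n)) (fun ω ω' => Iff.rfl)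
    (fun ω ω' => |TR.ev (tr.x 0) n ω - TR.ev (tr.x 0) n ω'| ≤ T.dl δ n) (fun ω ω' => by rw [abs_sub_comm]) N i j hij

end

end Pool.Agent.Helper90.SEP
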