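import Pool.Agent.Helper90.SEP.SepA
import Pool.Agent.Helper90.SEP.SepB
import Pool.Agent.Helper68.ST2.Nd

/-! The field `st` of the corner of four windows. -/

set_option autoImplicit false

namespace Pool.Agent.Helper90.SEP

open Finset Filter Topology Pool.Agent.Helper69.RK Pool.Agent.Helper31.EC Pool.Agent.Helper31.EC.Sp
open Pool.Agent.Helper40.EL Pool.Agent.Helper25.EC Pool.Agent.Helper24.T3 Pool.Agent.Helper40.NSK QS
open Pool.Agent.Helper99.CC Pool.Agent.Helper99.LF Pool.Agent.Helper50.CV Pool.Agent.Helper60.CS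
open Pool.Agent.Helper68.ST2 Pool.Agent.Helper47.T4 Pool.Agent.Helper47.CA Pool.Agent.Helper38.NS

noncomputable section

/-- on all events of all extensions, over the partition `V`, `x` has digits of all levels beyond `u` -/
def RichX {Q : Sp} (V : ∀ k, Setoid (Q.F k).Ω) (x : TR Q) (u : ℝ) : Prop :=
  ∀ r, u < r → ∀ (e : ℝ) (he : 0 < e) (K : Sp) (p : Pj K (Q.chg V e he)) (E : ∀ k, (K.F k).Ω → Prop)
    (hE : 0 < ul (K.pr E)), restL E hE (p.map (chgL V e he (TR.dg x r))) ≠ ⊥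

theorem chg_map {S : Sp} {Z Z' : ∀ k, Setoid (S.F k).Ω} (hZ : ∀ k, Z' k ≤ Z k) (c : ℝ) (hc : 0 < c) (x : S.L) :
    (Rb.chg hZ c hc).map (chgL Z c hc x) = chgL Z' c hc x := by
  induction x using cl_ind with | _ B
  rw [chgL_cl, chgL_cl, Rb.map_cl]
  congr 1

theorem fB_vd {T : Sp} {d k : ℕ} (tr : FTC T d k) :
    vd (fc tr).fB 1 = vd (fc tr).y 1 ⊔ dg (fc tr).t 1 ⊔ dg (fc tr).z 1 := by
  rw [← cbOf_fQ, FB.vd_fQ]
  have h2 : (cbOf (fc tr)).fb.iZ = dg (fc tr).z 1 := by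
    show dg (cbOf (fc tr)).fb.z 1 = _
    rw [cbOf_z]
  rw [h2]
  have h3 : (cbOf (fc tr)).fb.iT = dg (fc tr).t 1 := rfl
  have h4 : (cbOf (fc tr)).fb.iY = vd (fc tr).y 1 := rfl
  rw [h3, h4, ← sup_assoc, sup_comm (dg (fc tr).t 1)]

variable {Q : Sp} (F : Fw Q)

/-- **the field `st`** -/
theorem st_fw (hR : RichX F.V3 F.L.x F.u) (N : ℕ) :
    ∃ w : QS.CQ F.D.U (fc F.D.cd.tr).fB N, ∀ e : Fin (1 + 1) → Fin (N + 1), Function.Injective e →
      Big (Matrix.of fun i j => (w.p (e i)).qs ((fc F.D.cd.tr).v j)).det 0 := by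
  apply sep_B F.D.cd.tr
  intro d hd
  obtain ⟨q, hq⟩ : ∃ q : Rb (Q.chg F.V3 F.e F.he) F.D.U, q = Rb.chg F.n3 F.e F.he := ⟨_, rfl⟩
  have hm : ∀ x : Q.L, q.map (chgL F.V2 F.e F.he x) = chgL F.V3 F.e F.he x := by
    intro x
    rw [hq]
    exact chg_map F.n3 F.e F.he x
  have hb : Bdd (S := F.D.U) (α := fun _ => Fin (1 + 1 + 1) → ℤ) (F.D.cd.tr.pv.cellv 1) := F.D.cd.tr.pv.bdd 1
  refine sep_A q (F.D.cd.tr.x 0) hb.toInf ?_ ?_ d hd
  · rw [← io_eq hb, ← fB_io, fB_vd, F.rY]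
    have h1 : dg (fc F.D.cd.tr).t 1 = chgL F.V2 F.e F.he (T2 F.D) := by
      have h2 : dg (fc F.D.cd.tr).t 1 = TR.dg F.D.cd.t 1 := dg_mk _ le_rfl
      rw [h2, F.D.t_dg]
      rfl
    have h3 : dg (fc F.D.cd.tr).z 1 = chgL F.V2 F.e F.he (TR.dg F.D.ζ (F.e * (F.σ + F.v))) := by
      rw [F.D.z_dg le_rfl]
      have e1 : F.D.e * (1 - (1 - F.D.σ - F.D.v)) = F.e * (F.σ + F.v) := by
        show F.e * (1 - (1 - F.σ - F.v)) = F.e * (F.σ + F.v)
        ring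
      rw [e1]
      rfl
    rw [h1, h3, Rb.map_sup, Rb.map_sup, hm, hm, hm, ← chgL_sup, F.a_k3, F.a_z3, sup_bot_eq]
  · intro K p E hE d' hd'
    have h1 : TR.dg (F.D.cd.tr.x 0) d' = chgL F.V2 F.e F.he (TR.dg F.W2.X (F.e * d')) := trc_dg F.V2 F.e F.he F.W2.X d'
    rw [h1, hm, F.W2.X_up F.n3]
    have h2 : 0 < F.e * d' := mul_pos F.he hd'
    exact hR (F.u + F.e * d') (by linarith) F.e F.he K p E hE

end

end Pool.Agent.Helper90.SEP
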