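import Pool.Agent.Helper90.SEP.St2
import Pool.Agent.Helper68.ST2.Par
import Pool.Agent.Helper19.S12.Out

/-! The direction of the base line has digits beyond the depth `u` over all labels of a box, on all events. -/

set_option autoImplicit false

namespace Pool.Agent.Helper90.SEP

open Finset Filter Topology Pool.Agent.Helper69.RK Pool.Agent.Helper31.EC Pool.Agent.Helper31.EC.Sp
open Pool.Agent.Helper40.EL Pool.Agent.Helper42.NS Pool.Agent.Helper52.KP Pool.Agent.Helper52.SL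
open Pool.Agent.Helper91.GR Pool.Agent.Helper80.HCI Pool.Agent.Helper68.ST2 Pool.Agent.Helper19.S12
open Pool.Agent.Helper98.FR (famPj)

noncomputable section

variable {S : Sp} {s : Sys S 2} {i j : Fin 2} {c w b : ℝ}

theorem H_zero_of_ev (K : Crn s i j c w b) {c' : ℝ} {l : Lab S} (hl : IsKap s c' l) {e : ℝ} (he : 0 < e) {W : Sp}
    (p : Pj W (l.ovr e he)) (E : ∀ k, (W.F k).Ω → Prop) (hE : 0 < ul (W.pr E)) {r : ℝ} (hr : r ≤ 1)
    (h1 : restL E hE (p.map (l.upL e he (TR.dg (TR.cor s.x j) r))) = ⊥) : H (TR.dg (TR.cor s.x j) r) = 0 := by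
  have h2 := rob_ovr K.rob.d hl he p E hE [(Sum.inr (Sum.inr j), r)] []
  rw [L_Xj, digl_nil, h1] at h2
  have h3 : h (⊥ : (W.rest E).L) (restL E hE (p.map (l.upL e he (⊥ : S.L)))) = 0 :=
    le_antisymm ((h_le_H _ _).trans (le_of_eq H_bot)) (h_nonneg _ _)
  rw [h3] at h2
  have h4 : h (up1 l (TR.dg (TR.cor s.x j) r)) (up1 l (⊥ : S.L)) = 0 := by
    rcases div_eq_zero_iff.mp h2.symm with h5 | h5
    · exact h5
    · exact absurd h5 he.ne'
  have h5 : up1 l (TR.dg (TR.cor s.x j) r) = ⊥ := by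
    apply le_antisymm _ bot_le
    rw [h_eq_zero_iff] at h4
    have e2 : up1 l (⊥ : S.L) = ⊥ := l.upL_bot 1 one_pos
    rwa [e2] at h4
  refine H_zero_of_up1 K.con hl.dm ?_ h5
  exact (TR.cor_dg_le s.x j _).trans ((s.x.dg_mono hr).trans le_sup_right)

/-- over all labels of a box the direction of the base line has digits beyond `u` -/
theorem Crn.rich (K : Crn s i j c w b) {cs rs : ℕ → ℝ} (B : Bw s i j (la s j {0} 0) cs rs) (n : ℕ) :
    RichX (fun k => (B.M k).V n) (lnOf s i j (famPj B.M)).x (la s j {0} 0) := by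
  intro r hr e he W p E hE heq
  have hu1 : la s j {0} 0 < 1 := by
    have h1 := K.cu_lt
    have h2 := K.c_pos
    linarith
  obtain ⟨r', hr1, hr2, hr3⟩ : ∃ r' : ℝ, la s j {0} 0 < r' ∧ r' ≤ r ∧ r' ≤ 1 :=
    ⟨min r 1, lt_min hr hu1, min_le_left _ _, min_le_right _ _⟩
  have h1 : restL E hE (p.map (chgL (S := B.M.sp) (fun k => (B.M k).V n) e he
      ((famPj B.M).map (TR.dg (TR.cor s.x j) r')))) = ⊥ := by
    apply le_antisymm _ bot_le
    rw [← heq]
    refine restL_mono E hE (p.map_mono (chgL_mono _ _ _ ?_))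
    have e2 : TR.dg (lnOf s i j (famPj B.M)).x r = (famPj B.M).map (TR.dg (TR.cor s.x j) r) := Pj.tr_dg _ _ _
    rw [e2]
    exact (famPj B.M).map_mono (TR.dg_mono _ hr2)
  have h2 := H_zero_of_ev K (B.kap n) he p E hE hr3 h1
  exact absurd h2 (H_x_pos hr1 hr3).ne'

end

end Pool.Agent.Helper90.SEP
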