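import Pool.Agent.Helper69.BF.Bsh2
import Pool.Agent.Helper52.KP.AgrF
import Pool.Agent.Helper99.EC.FinA

/-! The law of two points of the canonical bush is the law of two conditionally independent copies. -/

set_option autoImplicit false

namespace Pool.Agent.Helper90.SEP

open Finset Filter Topology Pool.Agent.Helper69.RK Pool.Agent.Helper31.EC Pool.Agent.Helper31.EC.Sp
open Pool.Agent.Helper40.EL Pool.Agent.Helper25.EC Pool.Agent.Helper24.T3

noncomputable section

theorem sum_push {Ω Ω' : Type} [Fintype Ω] [Fintype Ω'] (π : Ω' → Ω) (ν : Ω' → ℝ) (φ : Ω → ℝ) :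
    ∑ x, ν x * φ (π x) = ∑ y, push π ν y * φ y := by
  have h1 : ∀ y, push π ν y * φ y = ∑ x, e1_ind (π x = y) * ν x * φ y := by
    intro y
    rw [push_ind, Finset.sum_mul]
  rw [Finset.sum_congr rfl fun y _ => h1 y, Finset.sum_comm]
  apply Finset.sum_congr rfl
  intro x _
  rw [Finset.sum_eq_single (π x)]
  · rw [e1_ind_pos rfl, one_mul]
  · intro b _ hb
    rw [e1_ind_neg (fun h => hb h.symm), zero_mul, zero_mul]
  · intro h
    exact absurd (Finset.mem_univ _) h

/-- law of a pair, finite form -/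
theorem amw_sum {Ω Ω' α α' : Type} [Fintype Ω] [Fintype Ω'] (ν : Ω' → ℝ) (μ : Ω → ℝ) (π : Ω' → Ω)
    (hp : push π ν = μ) (f : Ω' → α) (g : Ω → α) (g' : Ω → α') (hf : ∀ w, ν w ≠ 0 → f w = g (π w))
    (hg : ∀ y y', g y = g y' ↔ g' y = g' y') (R : Ω → Ω → Prop) :
    ∑ w : Ω' × Ω, e1_ind (R (π w.1) w.2) * amw ν μ f g w = ∑ w : Ω × Ω, e1_ind (R w.1 w.2) * amw μ μ g' g' w := by
  obtain ⟨φ, hφ⟩ : ∃ φ : Ω → ℝ, ∀ y, φ y = ∑ x, e1_ind (R y x) * (e1_ind (g' y = g' x) * (μ x / ms μ g' (g' y))) :=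
    ⟨_, fun _ => rfl⟩
  have hm : ∀ y, ms ν f (g y) = ms μ g' (g' y) := by
    intro y
    have h1 : ms ν f (g y) = ms ν (fun w => g (π w)) (g y) := by
      unfold ms
      apply Finset.sum_congr rfl
      intro w _
      by_cases hw : ν w = 0
      · rw [hw, mul_zero, mul_zero]
      · rw [hf w hw]
    rw [h1, ms_push, hp]
    unfold ms
    apply Finset.sum_congr rfl
    intro x _
    rw [ind_congr (hg x y)]
  have e1 : ∑ w : Ω' × Ω, e1_ind (R (π w.1) w.2) * amw ν μ f g w = ∑ w, ν w * φ (π w) := by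
    rw [Fintype.sum_prod_type]
    apply Finset.sum_congr rfl
    intro w _
    by_cases hw : ν w = 0
    · rw [hw, zero_mul]
      apply Finset.sum_eq_zero
      intro x _
      unfold amw
      show e1_ind (R (π w) x) * (e1_ind (f w = g x) * (ν w * μ x / ms ν f (f w))) = 0
      rw [hw]
      simp
    · rw [hφ, Finset.mul_sum]
      apply Finset.sum_congr rfl
      intro x _
      show e1_ind (R (π w) x) * (e1_ind (f w = g x) * (ν w * μ x / ms ν f (f w))) = _
      rw [hf w hw, hm, ind_congr (hg (π w) x)]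
      ring
  have e2 : ∑ w : Ω × Ω, e1_ind (R w.1 w.2) * amw μ μ g' g' w = ∑ y, μ y * φ y := by
    rw [Fintype.sum_prod_type]
    apply Finset.sum_congr rfl
    intro y _
    rw [hφ, Finset.mul_sum]
    apply Finset.sum_congr rfl
    intro x _
    show e1_ind (R y x) * (e1_ind (g' y = g' x) * (μ y * μ x / ms μ g' (g' y))) = _
    ring
  rw [e1, e2, sum_push, hp]

variable {W S : Sp}

theorem mk_iff {F : FSp} (A : Setoid F.Ω) (ω ω' : F.Ω) :
    Quotient.mk (A ⊓ F.Z) ω = Quotient.mk (A ⊓ F.Z) ω' ↔ A ω ω' ∧ F.Z ω ω' :=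
  ⟨fun h => Quotient.exact h, fun h => Quotient.sound h⟩

/-- probabilities in the amalgam of an extension with a new copy -/
theorem pb_join (p p' : Pj W S) {α : ℕ → Type} (V : ∀ k, (S.F k).Ω → α k) (k : ℕ)
    (hpp : ∀ w, (W.F k).μ w ≠ 0 → V k (p.π k w) = V k (p'.π k w) ∧ (S.F k).Z (p.π k w) (p'.π k w))
    (A : Setoid (S.F k).Ω) (hA : ∀ ω ω', (V k ω = V k ω' ∧ (S.F k).Z ω ω') ↔ (A ω ω' ∧ (S.F k).Z ω ω'))
    (R : (S.F k).Ω → (S.F k).Ω → Prop) :
    ((p.join V).sp.F k).pb (fun w => R (p'.π k w.1) w.2) = (FAm.self (S.F k) A).sp.pb (fun w => R w.1 w.2) := by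
  unfold FSp.pb
  rw [mass_res_ind, mass_res_ind]
  refine amw_sum (W.F k).μ (S.F k).μ (p'.π k) (p'.law k) ((p.join V).f k) ((p.join V).g k)
    (Quotient.mk (A ⊓ (S.F k).Z)) ?_ ?_ R
  · intro w hw
    obtain ⟨h1, h2⟩ := hpp w hw
    show (V k (p.π k w), Quotient.mk (S.F k).Z (p.π k w)) = (V k (p'.π k w), Quotient.mk (S.F k).Z (p'.π k w))
    rw [h1, Quotient.sound h2]
  · intro y y'
    rw [mk_iff, ← hA]
    show (V k y, Quotient.mk (S.F k).Z y) = (V k y', Quotient.mk (S.F k).Z y') ↔ _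
    rw [Prod.mk.injEq]
    exact and_congr Iff.rfl ⟨fun h => Quotient.exact h, fun h => Quotient.sound h⟩

/-- probabilities of pairs in the canonical bush -/
theorem can_pb {α : ℕ → Type} {V : ∀ k, (S.F k).Ω → α k} (hV : Bdd V) (k : ℕ) (A : Setoid (S.F k).Ω)
    (hA : ∀ ω ω', (V k ω = V k ω' ∧ (S.F k).Z ω ω') ↔ (A ω ω' ∧ (S.F k).Z ω ω'))
    (R : (S.F k).Ω → (S.F k).Ω → Prop) (hR : ∀ ω ω', R ω ω' ↔ R ω' ω) (n : ℕ) :
    ∀ i j : Fin (n + 1), i ≠ j → ((can V hV n).W.F k).pb (fun w => R (((can V hV n).p i).π k w)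
      (((can V hV n).p j).π k w)) = (FAm.self (S.F k) A).sp.pb (fun w => R w.1 w.2) := by
  induction n with
  | zero => exact fun i j h => absurd (Fin.ext (by omega)) h
  | succ n ih =>
    obtain ⟨C, hC⟩ : ∃ C, C = can V hV n := ⟨_, rfl⟩
    rw [← hC] at ih
    rw [can_succ, ← hC]
    have hA' : ∀ ω ω', (wZ V k ω = wZ V k ω' ∧ (S.F k).Z ω ω') ↔ (A ω ω' ∧ (S.F k).Z ω ω') := by
      intro ω ω'
      rw [← hA]
      unfold wZ
      rw [Prod.mk.injEq]
      exact ⟨fun h => ⟨h.1.1, h.2⟩, fun h => ⟨⟨h.1, Quotient.sound h.2⟩, h.2⟩⟩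
    have key : ∀ i : Fin (n + 1), (((C.p 0).join (wZ V)).sp.F k).pb (fun w => R ((C.p i).π k w.1) w.2) =
        (FAm.self (S.F k) A).sp.pb (fun w => R w.1 w.2) := by
      intro i
      refine pb_join (C.p 0) (C.p i) (wZ V) k (fun w hw => ?_) A hA' R
      have h1 := C.agree k w hw 0 i
      refine ⟨h1, ?_⟩
      exact Quotient.exact (congrArg Prod.snd h1)
    have hsym : ∀ (F : FSp) (u v : F.Ω → (S.F k).Ω), F.pb (fun w => R (u w) (v w)) = F.pb (fun w => R (v w) (u w)) := by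
      intro F u v
      congr 1
      funext w
      exact propext (hR _ _)
    have hcl : ∀ i : Fin (n + 1), ((snoc C (wZ_bdd hV)).W.F k).pb (fun w => R (((snoc C (wZ_bdd hV)).p i.castSucc).π k w)
        (((snoc C (wZ_bdd hV)).p (Fin.last (n + 1))).π k w)) = (FAm.self (S.F k) A).sp.pb (fun w => R w.1 w.2) := by
      intro i
      rw [snoc_cast, snoc_last]
      exact key i
    intro i j hij
    induction i using Fin.lastCases with
    | last =>
      induction j using Fin.lastCases with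
      | last => exact absurd rfl hij
      | cast j =>
        rw [hsym]
        exact hcl j
    | cast i =>
      induction j using Fin.lastCases with
      | last => exact hcl i
      | cast j =>
        rw [snoc_cast, snoc_cast]
        have h1 := ih i j fun h => hij (congrArg Fin.castSucc h)
        rw [← h1]
        exact Pool.Agent.Helper99.EC.pb_pull ((C.p 0).join (wZ V)).p1 k
          (fun w => R ((C.p i).π k w) ((C.p j).π k w))

end

end Pool.Agent.Helper90.SEP
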