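import Pool.Agent.Helper90.SEP.Law
import Pool.Agent.Helper68.ST2.Rb
import Pool.Agent.Helper25.EC.Rst

/-! SEP (A): a function which is nonzero on all events of all extensions of a space with a finer base, in which the
information `A` is trivial: two conditionally independent copies of it over `A` are separated. -/

set_option autoImplicit false

namespace Pool.Agent.Helper90.SEP

open Finset Filter Topology Pool.Agent.Helper69.RK Pool.Agent.Helper31.EC Pool.Agent.Helper31.EC.Sp
open Pool.Agent.Helper40.EL Pool.Agent.Helper25.EC Pool.Agent.Helper68.ST2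

noncomputable section

variable {R' R : Sp} (q : Rb R' R) {α : ℕ → Type} (V : ∀ k, (R.F k).Ω → α k)

/-- the amalgam of the finer space with a new copy, with the old base -/
abbrev cO : Sp := (q.pj.join V).sp

/-- the amalgam with the finer base -/
def cN : Sp where
  F := fun k =>
    { Ω := (R'.F k).Ω × (R.F k).Ω
      ft := inferInstance
      μ := ((cO q V).F k).μ
      nn := ((cO q V).F k).nn
      ms := ((cO q V).F k).ms
      Z := Setoid.comap Prod.fst (R'.F k).Z
      n := (R'.F k).n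
      pos := (R'.F k).pos }
  lim := (cO q V).lim

/-- the first projection -/
def cP : Pj (cN q V) R' where
  π := fun _ w => w.1
  law := fun k => (q.pj.join V).p1.law k
  hZ := fun _ _ _ _ _ => Iff.rfl
  hn := fun _ => rfl

/-- refinement of the base -/
def cR : Rb (cN q V) (cO q V) where
  π := fun _ w => w
  law := fun k => push_id _
  hZ := fun k w w' h h' hz => by
    have h1 := (cP q V).supp k w h
    have h2 := (cP q V).supp k w' h'
    exact q.hZ k w.1 w'.1 h1 h2 hz
  hn := fun _ => rfl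

theorem cR_map (x : R.L) : (cR q V).map ((q.pj.join V).p1.map (q.pj.map x)) = (cP q V).map (q.map x) := by
  induction x using cl_ind with | _ B
  rw [Pj.map_cl, Pj.map_cl, Rb.map_cl, Rb.map_cl, Pj.map_cl]
  congr 1

/-- refinement of the base on an event -/
def rE {K K1 : Sp} (r : Rb K K1) (E : ∀ k, (K1.F k).Ω → Prop) (E' : ∀ k, (K.F k).Ω → Prop)
    (hμ : ∀ k, push (r.π k) ((K.rest E').F k).μ = ((K1.rest E).F k).μ) : Rb (K.rest E') (K1.rest E) where
  π := r.π
  law := hμ
  hZ := fun k w w' h h' hz => r.hZ k w w' ((K.F k).rest_supp (E' k) w h).1 ((K.F k).rest_supp (E' k) w' h').1 hz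
  hn := r.hn

variable {V}

/-- digits of the function are trivial on an event of the amalgam where the copies are close -/
theorem close_le (hV : Bdd V) (X : TR R) (E : ∀ k, ((cO q V).F k).Ω → Prop) (hE : 0 < ul ((cO q V).pr E)) (d : ℝ)
    (hcl : ∀ k w, E k w → |TR.ev X k (q.π k w.1) - TR.ev X k w.2| ≤ R.dl d k) :
    restL E hE ((q.pj.join V).p1.map (q.pj.map (TR.dg X d))) ≤
      restL E hE ((q.pj.join V).p1.map (q.pj.map (io V))) := by
  have hag : TR.Ag d (rst E ((q.pj.join V).p1.tr (q.pj.tr X))) (rst E ((q.pj.join V).p2.tr X)) := by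
    refine ⟨fun _ _ => True, fun _ => 1, Typ_true, Sub_const _ zero_le_one, ?_⟩
    filter_upwards [rest_mem E hE] with k hk w hw _
    have h1 := hcl k w (hk w hw).2
    have h2 : ((cO q V).rest E).dl d k = R.dl d k := by
      show (cO q V).dl d k = R.dl d k
      unfold Sp.dl
      rw [(q.pj.join V).p2.hn k]
    rw [one_mul, h2]
    exact h1
  have h1 := hag.dg_eq le_rfl
  rw [rst_dg E hE, rst_dg E hE, Pj.tr_dg, Pj.tr_dg, Pj.tr_dg] at h1
  have h2 := q.pj.join_indep V hV (q.pj.map (TR.dg X d)) (TR.dg X d)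
  have h3 := I_rest_zero E hE h2
  rw [← h1, I_zero_iff_h] at h3
  rw [← h_eq_zero_iff, ← h3]
  exact h_zero le_sup_left

/-- the event that the two copies are close -/
def clO (V : ∀ k, (R.F k).Ω → α k) (X : TR R) (d : ℝ) : ∀ k, ((cO q V).F k).Ω → Prop :=
  fun k w => |TR.ev X k (q.π k w.1) - TR.ev X k w.2| ≤ R.dl d k

/-- the event that the two copies are close, finer base -/
def clN (V : ∀ k, (R.F k).Ω → α k) (X : TR R) (d : ℝ) : ∀ k, ((cN q V).F k).Ω → Prop :=
  fun k w => |TR.ev X k (q.π k w.1) - TR.ev X k w.2| ≤ R.dl d k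

theorem rest_comm (V : ∀ k, (R.F k).Ω → α k) (X : TR R) (d : ℝ) (hO : 0 < ul ((cO q V).pr (clO q V X d)))
    (hN : 0 < ul ((cN q V).pr (clN q V X d))) :
    ∃ r : Rb ((cN q V).rest (clN q V X d)) ((cO q V).rest (clO q V X d)), ∀ x : (cO q V).L,
      restL (clN q V X d) hN ((cR q V).map x) = r.map (restL (clO q V X d) hO x) := by
  refine ⟨rE (cR q V) _ _ (fun k => push_id _), fun x => ?_⟩
  induction x using cl_ind with | _ B
  rw [Rb.map_cl, restL_cl, restL_cl, Rb.map_cl]
  congr 1

variable {q}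

/-- **SEP (A)** -/
theorem sep_A (q : Rb R' R) (X : TR R) (A : R.Inf) (hA : q.map (cl A) = ⊥)
    (hrich : ∀ (K : Sp) (p : Pj K R') (E : ∀ k, (K.F k).Ω → Prop) (hE : 0 < ul (K.pr E)) (d : ℝ), 0 < d →
      restL E hE (p.map (q.map (TR.dg X d))) ≠ ⊥) (d : ℝ) (hd : 0 < d) :
    ul (fun k => (FAm.self (R.F k) (A.1 k)).sp.pb (fun w => |TR.ev X k w.1 - TR.ev X k w.2| ≤ R.dl d k)) = 0 := by
  obtain ⟨V, hVd⟩ : ∃ V : ∀ k, (R.F k).Ω → Quotient (A.1 k), V = fun k => Quotient.mk (A.1 k) := ⟨_, rfl⟩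
  have hker : ∀ k, Setoid.ker (V k) = A.1 k := by
    intro k
    rw [hVd]
    ext ω ω'
    exact Quotient.eq
  have hV : Bdd V := by
    have h1 : (fun k => Setoid.ker (V k)) = A.1 := funext hker
    unfold Bdd
    rw [h1]
    exact A.2
  have hio : io V = cl A := by
    rw [io_eq hV]
    congr 1
    exact Subtype.ext (funext hker)
  have hpr : (fun k => (FAm.self (R.F k) (A.1 k)).sp.pb (fun w => |TR.ev X k w.1 - TR.ev X k w.2| ≤ R.dl d k)) =
      (cO q V).pr (clO q V X d) := by
    funext k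
    refine (pb_join q.pj q.pj V k (fun w hw => ⟨rfl, (R.F k).Z.refl _⟩) (A.1 k) (fun ω ω' => ?_)
      (fun ω ω' => |TR.ev X k ω - TR.ev X k ω'| ≤ R.dl d k)).symm
    have h1 : (Setoid.ker (V k)) ω ω' ↔ (A.1 k) ω ω' := by rw [hker k]
    exact and_congr h1 Iff.rfl
  rw [hpr]
  by_contra hne
  have h0 : 0 ≤ ul ((cO q V).pr (clO q V X d)) :=
    const_le_ul (UB_pr _) (Eventually.of_forall fun k => pr_nonneg _ k)
  have hpos : 0 < ul ((cO q V).pr (clO q V X d)) := lt_of_le_of_ne h0 (Ne.symm hne)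
  have hpos' : 0 < ul ((cN q V).pr (clN q V X d)) := hpos
  have h1 := close_le q hV X (clO q V X d) hpos d (fun k w hw => hw)
  rw [hio] at h1
  obtain ⟨r, hcomm⟩ := rest_comm q V X d hpos hpos'
  have h2 := r.map_mono h1
  rw [← hcomm, ← hcomm, cR_map, cR_map, hA, Pj.map_bot, restL_bot] at h2
  exact hrich (cN q V) (cP q V) (clN q V X d) hpos' d hd (le_bot_iff.mp h2)

end

end Pool.Agent.Helper90.SEP
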